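import Mathlib

open MeasureTheory Set Complex

namespace Pool.Agent.Results.MP_9d6809_an.No

/-- `L²(ℝ)`. -/
noncomputable abbrev L2 := Lp ℂ 2 (volume : Measure ℝ)

/-- A Riesz basis: the image of an orthonormal basis under a bounded invertible operator. -/
def IsRieszBasis {ι H : Type} [NormedAddCommGroup H] [InnerProductSpace ℂ H] (v : ι → H) : Prop :=
  ∃ (e : HilbertBasis ι ℂ H) (T : H ≃L[ℂ] H), ∀ i, T (e i) = v i

/-- `Ω` has positive finite measure and multi-tiles `ℝ` by the lattice `ℤ` at level `k`. -/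
def MultiTiles (Ω : Set ℝ) (k : ℕ) : Prop :=
  MeasurableSet Ω ∧ 0 < volume Ω ∧ volume Ω < ⊤ ∧
    ∀ᵐ x : ℝ, {l : ℤ | x - l ∈ Ω}.ncard = k

/-- The Gabor function `x ↦ e^{2πiγx} χ_Ω(x - l)`. -/
noncomputable def gabor (Ω : Set ℝ) (l : ℤ) (γ : ℝ) (x : ℝ) : ℂ :=
  exp (2 * Real.pi * I * γ * x) * Ω.indicator 1 (x - l)

/-- The Gabor system `𝒢(χ_Ω, ℤ × Γ)` is a Riesz basis of `L²(ℝ)`. -/
def GaborRiesz (Ω Γ : Set ℝ) : Prop :=
  ∃ v : ℤ × Γ → L2, (∀ p, (v p : ℝ → ℂ) =ᵐ[volume] gabor Ω p.1 p.2) ∧ IsRieszBasis v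

lemma norm_gabor (Ω : Set ℝ) (l : ℤ) (γ x : ℝ) :
    ‖gabor Ω l γ x‖ = ‖((fun x : ℝ => x - l) ⁻¹' Ω).indicator (fun _ => (1 : ℝ)) x‖ := by
  have : ‖exp (2 * Real.pi * I * γ * x)‖ = 1 := by
    rw [show 2 * Real.pi * I * γ * x = ((2 * Real.pi * γ * x : ℝ) : ℂ) * I by push_cast; ring,
      norm_exp_ofReal_mul_I]
  rw [gabor, norm_mul, this, one_mul]
  by_cases h : x - l ∈ Ω <;> simp [indicator, h]

lemma exists_u (γ : ℝ) (l : ℤ) : ∃ u : L2, ‖u‖ ≤ 1 ∧ (u : ℝ → ℂ) =ᵐ[volume] gabor (Ico 0 1) l γ := by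
  have hm : AEStronglyMeasurable (gabor (Ico 0 1) l γ) volume := by
    refine Measurable.aestronglyMeasurable (Measurable.mul (by fun_prop) ?_)
    exact (measurable_one.indicator measurableSet_Ico).comp (by fun_prop)
  have e : (fun x : ℝ => x - l) ⁻¹' Ico 0 1 = Ico (l : ℝ) (l + 1) := by
    ext x; simp only [mem_preimage, mem_Ico]; constructor <;> rintro ⟨h1, h2⟩ <;>
      constructor <;> linarith
  have hn : eLpNorm (gabor (Ico 0 1) l γ) 2 volume = 1 := by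
    rw [eLpNorm_congr_norm_ae (ae_of_all _ (norm_gabor (Ico 0 1) l γ)), e,
      eLpNorm_indicator_const measurableSet_Ico (by norm_num) (by norm_num)]
    simp
  have h : MemLp (gabor (Ico 0 1) l γ) 2 volume := ⟨hm, by rw [hn]; simp⟩
  exact ⟨h.toLp _, by rw [Lp.norm_toLp, hn]; simp, h.coeFn_toLp⟩

theorem result (k : ℕ) (hk : 2 ≤ k) :
    MultiTiles (Ico 0 (k : ℝ)) k ∧ ∀ Γ : Set ℝ, ¬ GaborRiesz (Ico 0 (k : ℝ)) Γ := by
  have hk' : (2 : ℝ) ≤ k := by exact_mod_cast hk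
  constructor
  · refine ⟨measurableSet_Ico, by simp; omega, by simp, ae_of_all _ fun x => ?_⟩
    have : {l : ℤ | x - l ∈ Ico 0 (k : ℝ)} = (Finset.Ioc (⌊x⌋ - k) ⌊x⌋ : Finset ℤ) := by
      ext l
      simp only [mem_ofPred_eq, mem_Ico, Finset.coe_Ioc, mem_Ioc, Int.le_floor, sub_nonneg]
      rw [sub_lt_iff_lt_add (a := ⌊x⌋), Int.floor_lt, and_comm]
      push_cast
      constructor <;> rintro ⟨h1, h2⟩ <;> exact ⟨by linarith, h2⟩
    rw [this, ncard_coe_finset]; simp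
  rintro Γ ⟨v, hv, e, T, hT⟩
  rcases Γ.eq_empty_or_nonempty with rfl | ⟨γ, hγ⟩
  · obtain ⟨u, -, hu⟩ := exists_u 0 0
    have h0 : u = 0 := by
      have := e.hasSum_repr u
      exact this.unique hasSum_empty
    have h1 : ∀ᵐ x : ℝ, x ∉ Ico (0 : ℝ) 1 := by
      filter_upwards [hu, h0 ▸ Lp.coeFn_zero ℂ 2 (volume : Measure ℝ)] with x h1 h2 hx
      rw [h2] at h1
      simp [gabor, indicator, hx.1, hx.2] at h1
    rw [← measure_eq_zero_iff_ae_notMem] at h1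
    simp at h1
  choose u hu1 hu2 using exists_u γ
  have step : ∀ l : ℤ, v (l + 1, ⟨γ, hγ⟩) - v (l, ⟨γ, hγ⟩) = u (l + k) - u l := fun l => by
    refine Lp.ext ?_
    filter_upwards [Lp.coeFn_sub (v (l + 1, ⟨γ, hγ⟩)) (v (l, ⟨γ, hγ⟩)),
      Lp.coeFn_sub (u (l + k)) (u l), hv (l + 1, ⟨γ, hγ⟩), hv (l, ⟨γ, hγ⟩), hu2 (l + k), hu2 l]
      with x h1 h2 h3 h4 h5 h6
    rw [h1, h2, Pi.sub_apply, Pi.sub_apply, h3, h4, h5, h6]
    simp only [gabor, ← mul_sub]
    congr 1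
    simp only [indicator, mem_Ico, Pi.one_apply]
    push_cast
    split_ifs with a b c d <;> first | (simp; done) | (exfalso; simp only [not_and_or, not_le, not_lt] at *; casesm* _ ∧ _, _ ∨ _ <;> linarith)
  have tele : ∀ N : ℕ, T (∑ m ∈ Finset.range N,
      (e ((k * m : ℤ) + 1, ⟨γ, hγ⟩) - e ((k * m : ℤ), ⟨γ, hγ⟩))) = u (k * N) - u 0 := by
    intro N
    induction N with
    | zero => simp
    | succ N ih =>
      rw [Finset.sum_range_succ, map_add, ih, map_sub, hT, hT, step]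
      push_cast
      rw [mul_add, mul_one]; abel
  set C := ‖(T.symm : L2 →L[ℂ] L2)‖ * 2
  obtain ⟨N, hN⟩ := exists_nat_gt (C ^ 2)
  set w := ∑ m ∈ Finset.range N, (e ((k * m : ℤ) + 1, ⟨γ, hγ⟩) - e ((k * m : ℤ), ⟨γ, hγ⟩))
  have h1 : ‖w‖ ≤ C := by
    have : w = (T.symm : L2 →L[ℂ] L2) (u (k * N) - u 0) := by rw [← tele N]; simp [w]
    rw [this]
    refine (ContinuousLinearMap.le_opNorm _ _).trans ?_
    refine mul_le_mul_of_nonneg_left ?_ (norm_nonneg _)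
    linarith [norm_sub_le (u (k * N)) (u 0), hu1 (k * N), hu1 0]
  have hinj : Function.Injective fun m : ℕ => (((k * m : ℤ), ⟨γ, hγ⟩) : ℤ × Γ) := by
    intro a b h
    simp only [Prod.mk.injEq, and_true] at h
    have := mul_left_cancel₀ (by exact_mod_cast (by omega : k ≠ 0) : (k : ℤ) ≠ 0) h
    exact_mod_cast this
  have h2 := (e.orthonormal.comp _ hinj).sum_inner_products_le w (s := Finset.range N)
  have h3 : ∀ m ∈ Finset.range N,
      ‖inner ℂ ((e ∘ fun m : ℕ => (((k * m : ℤ), ⟨γ, hγ⟩) : ℤ × Γ)) m) w‖ ^ 2 = 1 := by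
    intro m hm
    have o := orthonormal_iff_ite.1 e.orthonormal
    simp only [Function.comp, w, inner_sum, inner_sub_right, o]
    rw [Finset.sum_eq_single m (fun j _ hj => ?_) (fun h => absurd hm h)]
    · simp
    · rw [if_neg, if_neg, sub_zero]
      · exact fun h => hj (hinj h).symm
      · intro h
        simp only [Prod.mk.injEq, and_true] at h
        have h4 : (k : ℤ) ∣ 1 := ⟨m - j, by linear_combination -h⟩
        have := Int.le_of_dvd one_pos h4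
        omega
  rw [Finset.sum_congr rfl h3] at h2
  simp only [Finset.sum_const, Finset.card_range, nsmul_eq_mul, mul_one] at h2
  nlinarith [norm_nonneg w]

end Pool.Agent.Results.MP_9d6809_an.No
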